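import Pool.Agent.Helper29.LR.Main

set_option autoImplicit false

namespace Pool.Agent.Results.MP_2eb7d7_al.LocallyRegular

open scoped commutatorElement

/-- Let `G` be a perfect locally finite `p`-group in which every proper subgroup is solvable, and let
`q = p ^ m`, `m ≥ 1`, be such that for all `a, b` the element `(a b)^q` is `a^q b^q` times a product of
`q`-th powers of elements of the derived subgroup of `⟨a, b⟩` (for `m = 1`: every subgroup generated
by two elements is regular in the sense of Hall).  Then `G` has finite exponent. -/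
theorem result (p m : ℕ) [Fact p.Prime] (hm : 1 ≤ m) (G : Type*) [Group G] (hp : IsPGroup p G)
    (hfin : ∀ H : Subgroup G, H.FG → Finite H) (hperf : commutator G = ⊤)
    (hsol : ∀ H : Subgroup G, H ≠ ⊤ → Group.IsSolvable H)
    (hreg : ∀ a b : G, ∃ l : List G,
      (∀ d ∈ l, d ∈ ⁅Subgroup.closure ({a, b} : Set G), Subgroup.closure ({a, b} : Set G)⁆) ∧
      (a * b) ^ p ^ m = a ^ p ^ m * b ^ p ^ m * (l.map (fun d => d ^ p ^ m)).prod) :
    ∃ n : ℕ, ∀ g : G, g ^ p ^ n = 1 := by
  have h : Pool.Agent.Helper29.LR.Cls p (p ^ m) G := by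
    refine ⟨hp, fun x y => hfin _ ?_, hreg⟩
    classical
    exact ⟨({x, y} : Finset G), by simp⟩
  obtain ⟨n, hn⟩ := Pool.Agent.Helper29.LR.main h ⟨m, hm, rfl⟩ hperf (fun k hk => hsol _ hk)
  refine ⟨m * n, fun g => ?_⟩
  rw [pow_mul]
  exact hn g

end Pool.Agent.Results.MP_2eb7d7_al.LocallyRegular
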